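import Pool.Agent.LibBenzel.Paths

set_option autoImplicit false

namespace Pool.Agent.Results.MP_65d510_co.SchroederBenzel

open Pool.Agent.LibBenzel

/-- A point `i + jω + kω²` is given by `(i,j,k)`; the cell centres are the points with
`i + j + k = 1`. -/
abbrev Pt := ℤ × ℤ × ℤ

/-- The `(a,b)`-benzel, as the set of the centres of its cells. -/
def benzel (a b : ℤ) : Set Pt :=
  {c | c.1 + c.2.1 + c.2.2 = 1 ∧
    (-(a - 1) ≤ c.2.1 - c.1 ∧ c.2.1 - c.1 ≤ b - 1) ∧
    (-(a - 1) ≤ c.2.2 - c.2.1 ∧ c.2.2 - c.2.1 ≤ b - 1) ∧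
    (-(a - 1) ≤ c.1 - c.2.2 ∧ c.1 - c.2.2 ≤ b - 1)}

/-- The translate by `v` of the right stone `{1, ω, ω²}`. -/
def rightStone (v : Pt) : Set Pt := {v + (1, 0, 0), v + (0, 1, 0), v + (0, 0, 1)}

/-- The translate by `v` of the point reflection `{-1, -ω, -ω²}` of the right stone. -/
def leftStone (v : Pt) : Set Pt := {v - (1, 0, 0), v - (0, 1, 0), v - (0, 0, 1)}

/-- The three bone directions `1 - ω`, `ω - ω²`, `ω² - 1`. -/
def dir : Fin 3 → Pt := ![(1, -1, 0), (0, 1, -1), (-1, 0, 1)]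

/-- The bone `{c, c + d, c + 2d}` where `d` is the direction with number `f`. -/
def bone (f : Fin 3) (c : Pt) : Set Pt := {c, c + dir f, c + dir f + dir f}

/-- The allowed tiles: both stones, and the bones of all orientations except number `e`. -/
def IsTile (e : Fin 3) (T : Set Pt) : Prop :=
  (∃ v, T = rightStone v) ∨ (∃ v, T = leftStone v) ∨ ∃ f, f ≠ e ∧ ∃ c, T = bone f c

/-- `P` is a tiling of the region `R` by allowed tiles. -/
def IsTiling (e : Fin 3) (R : Set Pt) (P : Set (Set Pt)) : Prop :=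
  (∀ T ∈ P, IsTile e T ∧ T ⊆ R) ∧ ∀ c ∈ R, ∃! T, T ∈ P ∧ c ∈ T

/-- The number of tilings of the `(a,b)`-benzel by both stones and the two bones of orientation
different from `e`. -/
noncomputable def T112 (e : Fin 3) (a b : ℤ) : ℕ := {P | IsTiling e (benzel a b) P}.ncard

/-- The large Schroeder number `S_m`: the number of lattice paths from `(0,0)` to `(m,m)` with
steps `(1,0)`, `(0,1)`, `(1,1)` that never go above the diagonal; a path is the list of its steps,
and its vertices are the sums of the prefixes of that list. -/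
noncomputable def schroeder (m : ℕ) : ℕ :=
  {p : List (ℕ × ℕ) | (∀ s ∈ p, s = (1, 0) ∨ s = (0, 1) ∨ s = (1, 1)) ∧
    (∀ q, q <+: p → q.sum.2 ≤ q.sum.1) ∧ p.sum = (m, m)}.ncard

theorem schroeder_eq (m : ℕ) : schroeder m = sch m m := (card_paths m m).2

/-! ### Rotation -/

/-- rotation by a third of a turn -/
def rho (c : Pt) : Pt := (c.2.2, c.1, c.2.1)

theorem rho3 (c : Pt) : rho (rho (rho c)) = c := rfl

/-- rotation of a set of tiles -/
def Rho (P : Set (Set Pt)) : Set (Set Pt) := (fun T => rho '' T) '' P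

theorem rho3_image (T : Set Pt) : rho '' (rho '' (rho '' T)) = T := by
  rw [← Set.image_comp, ← Set.image_comp]
  exact Set.image_id T

theorem Rho3 (P : Set (Set Pt)) : Rho (Rho (Rho P)) = P := by
  unfold Rho
  rw [← Set.image_comp, ← Set.image_comp]
  have : (((fun T : Set Pt => rho '' T) ∘ fun T => rho '' T) ∘ fun T => rho '' T) = id := by
    funext T
    exact rho3_image T
  rw [this, Set.image_id]

theorem Rho_inj : Function.Injective Rho := by
  intro P Q h
  rw [← Rho3 P, ← Rho3 Q, h]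

theorem rho_add (v w : Pt) : rho (v + w) = rho v + rho w := rfl
theorem rho_sub (v w : Pt) : rho (v - w) = rho v - rho w := rfl

theorem rho_dir (f : Fin 3) : rho (dir f) = dir (f + 1) := by
  fin_cases f <;> rfl

theorem isTile_rho {e : Fin 3} {T : Set Pt} (h : IsTile e T) : IsTile (e + 1) (rho '' T) := by
  rcases h with ⟨v, rfl⟩ | ⟨v, rfl⟩ | ⟨f, hf, c, rfl⟩
  · left
    refine ⟨rho v, ?_⟩
    unfold rightStone
    rw [Set.image_insert_eq, Set.image_insert_eq, Set.image_singleton, rho_add, rho_add, rho_add]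
    have h1 : rho (1, 0, 0) = (0, 1, 0) := rfl
    have h2 : rho (0, 1, 0) = (0, 0, 1) := rfl
    have h3 : rho (0, 0, 1) = (1, 0, 0) := rfl
    rw [h1, h2, h3]
    ext c
    simp only [Set.mem_insert_iff, Set.mem_singleton_iff]
    tauto
  · right; left
    refine ⟨rho v, ?_⟩
    unfold leftStone
    rw [Set.image_insert_eq, Set.image_insert_eq, Set.image_singleton, rho_sub, rho_sub, rho_sub]
    have h1 : rho (1, 0, 0) = (0, 1, 0) := rfl
    have h2 : rho (0, 1, 0) = (0, 0, 1) := rfl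
    have h3 : rho (0, 0, 1) = (1, 0, 0) := rfl
    rw [h1, h2, h3]
    ext c
    simp only [Set.mem_insert_iff, Set.mem_singleton_iff]
    tauto
  · right; right
    refine ⟨f + 1, fun h => hf (add_right_cancel h), rho c, ?_⟩
    unfold bone
    rw [Set.image_insert_eq, Set.image_insert_eq, Set.image_singleton, rho_add, rho_add, rho_add,
      rho_dir]

theorem rho_benzel {a b : ℤ} {c : Pt} (hc : c ∈ benzel a b) : rho c ∈ benzel a b := by
  obtain ⟨h1, h2, h3, h4⟩ := hc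
  refine ⟨?_, ?_, ?_, ?_⟩
  · unfold rho; simp only; omega
  · exact h4
  · exact h2
  · exact h3

theorem isTiling_Rho {e : Fin 3} {a b : ℤ} {P : Set (Set Pt)} (h : IsTiling e (benzel a b) P) :
    IsTiling (e + 1) (benzel a b) (Rho P) := by
  obtain ⟨h1, h2⟩ := h
  refine ⟨?_, ?_⟩
  · rintro _ ⟨T, hT, rfl⟩
    refine ⟨isTile_rho (h1 T hT).1, ?_⟩
    rintro _ ⟨c, hc, rfl⟩
    exact rho_benzel ((h1 T hT).2 hc)
  · intro c hc
    obtain ⟨T, ⟨hT, hcT⟩, hu⟩ := h2 (rho (rho c)) (rho_benzel (rho_benzel hc))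
    refine ⟨rho '' T, ⟨⟨T, hT, rfl⟩, ⟨rho (rho c), hcT, rho3 c⟩⟩, ?_⟩
    rintro _ ⟨⟨T', hT', rfl⟩, d, hd, rfl⟩
    rw [rho3] at hu
    rw [hu T' ⟨hT', hd⟩]

theorem T112_rot (e : Fin 3) (a b : ℤ) : T112 (e + 1) a b = T112 e a b := by
  unfold T112
  rw [← Set.ncard_image_of_injective {P | IsTiling e (benzel a b) P} Rho_inj]
  congr 1
  ext P
  constructor
  · intro hP
    refine ⟨Rho (Rho P), ?_, Rho3 P⟩
    have h1 := isTiling_Rho (isTiling_Rho hP)
    have h2 : e + 1 + 1 + 1 = e := by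
      fin_cases e <;> rfl
    rw [h2] at h1
    exact h1
  · rintro ⟨Q, hQ, rfl⟩
    exact isTiling_Rho hQ

/-! ### Tiles as codes -/

/-- the cell with internal coordinates `(l,x)` -/
def pt (m l x : ℤ) : Pt := (x + m + 1, l - 2 * x, x - m - l)

/-- the tile with a given code -/
def tl (m : ℤ) (t : Code) : Set Pt := {pt m t.l t.x0, pt m (t.l + 1) t.x1, pt m (t.l + 2) t.x2}

theorem pt_inj {m l x l' x' : ℤ} : pt m l x = pt m l' x' ↔ l = l' ∧ x = x' := by
  unfold pt
  rw [Prod.ext_iff, Prod.ext_iff]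
  simp only
  omega

theorem mem_tl {m l x : ℤ} {t : Code} : pt m l x ∈ tl m t ↔ t.has l x := by
  unfold tl Code.has
  simp only [Set.mem_insert_iff, Set.mem_singleton_iff, pt_inj]
  omega

theorem pt_mem_benzel {m : ℕ} {l x : ℤ} : pt m l x ∈ benzel (m + 3) (2 * m + 2) ↔ bz m l x := by
  unfold pt benzel bz blk tri
  simp only [Set.mem_ofPred_eq]
  push_cast
  omega

theorem exists_pt {c : Pt} (m : ℤ) (hc : c.1 + c.2.1 + c.2.2 = 1) : ∃ l x, c = pt m l x := by
  refine ⟨c.1 - c.2.2 - 2 * m - 1, c.1 - m - 1, ?_⟩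
  unfold pt
  rw [Prod.ext_iff, Prod.ext_iff]
  simp only
  omega

theorem tl_inj {m : ℤ} {t t' : Code} (h : tl m t = tl m t') : t = t' := by
  have h1 : ∀ l x, t.has l x ↔ t'.has l x := by
    intro l x
    rw [← mem_tl (m := m), ← mem_tl (m := m), h]
  have a0 := (h1 _ _).1 t.has0
  have a1 := (h1 _ _).1 t.has1
  have a2 := (h1 _ _).1 t.has2
  have b0 := (h1 _ _).2 t'.has0
  have b2 := (h1 _ _).2 t'.has2
  unfold Code.has at a0 a1 a2 b0 b2
  apply Code.ext <;> omega

theorem tl_sub {m : ℕ} {t : Code} (h : ∀ l x, t.has l x → bz m l x) :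
    tl m t ⊆ benzel (m + 3) (2 * m + 2) := by
  unfold tl
  rintro c (rfl | rfl | rfl)
  · exact pt_mem_benzel.2 (h _ _ t.has0)
  · exact pt_mem_benzel.2 (h _ _ t.has1)
  · exact pt_mem_benzel.2 (h _ _ t.has2)

theorem isTile_tl {m : ℤ} {t : Code} (h : t.ok) : IsTile 2 (tl m t) := by
  obtain ⟨h1, h2⟩ := h
  rcases h1 with h1 | h1 <;> rcases h2 with h2 | h2
  · -- bone of direction 1
    right; right
    refine ⟨1, by decide, pt m t.l t.x0, ?_⟩
    unfold bone tl
    have e1 : pt m (t.l + 1) t.x1 = pt m t.l t.x0 + dir 1 := by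
      unfold pt dir; rw [Prod.ext_iff, Prod.ext_iff]; simp; omega
    have e2 : pt m (t.l + 2) t.x2 = pt m t.l t.x0 + dir 1 + dir 1 := by
      unfold pt dir; rw [Prod.ext_iff, Prod.ext_iff]; simp; omega
    rw [e1, e2]
  · -- right stone
    left
    refine ⟨pt m t.l t.x0 - (0, 0, 1), ?_⟩
    unfold rightStone tl
    have e0 : pt m t.l t.x0 = pt m t.l t.x0 - (0, 0, 1) + (0, 0, 1) := by
      rw [sub_add_cancel]
    have e1 : pt m (t.l + 1) t.x1 = pt m t.l t.x0 - (0, 0, 1) + (0, 1, 0) := by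
      unfold pt; rw [Prod.ext_iff, Prod.ext_iff]; simp; omega
    have e2 : pt m (t.l + 2) t.x2 = pt m t.l t.x0 - (0, 0, 1) + (1, 0, 0) := by
      unfold pt; rw [Prod.ext_iff, Prod.ext_iff]; simp; omega
    rw [e1, e2, ← e0]
    ext c
    simp only [Set.mem_insert_iff, Set.mem_singleton_iff]
    tauto
  · -- left stone
    right; left
    refine ⟨pt m t.l t.x0 + (1, 0, 0), ?_⟩
    unfold leftStone tl
    have e0 : pt m t.l t.x0 = pt m t.l t.x0 + (1, 0, 0) - (1, 0, 0) := by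
      rw [add_sub_cancel_right]
    have e1 : pt m (t.l + 1) t.x1 = pt m t.l t.x0 + (1, 0, 0) - (0, 1, 0) := by
      unfold pt; rw [Prod.ext_iff, Prod.ext_iff]; simp; omega
    have e2 : pt m (t.l + 2) t.x2 = pt m t.l t.x0 + (1, 0, 0) - (0, 0, 1) := by
      unfold pt; rw [Prod.ext_iff, Prod.ext_iff]; simp; omega
    rw [e1, e2, ← e0]
  · -- bone of direction 0
    right; right
    refine ⟨0, by decide, pt m t.l t.x0, ?_⟩
    unfold bone tl
    have e1 : pt m (t.l + 1) t.x1 = pt m t.l t.x0 + dir 0 := by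
      unfold pt dir; rw [Prod.ext_iff, Prod.ext_iff]; simp; omega
    have e2 : pt m (t.l + 2) t.x2 = pt m t.l t.x0 + dir 0 + dir 0 := by
      unfold pt dir; rw [Prod.ext_iff, Prod.ext_iff]; simp; omega
    rw [e1, e2]

theorem exists_code {m : ℤ} {T : Set Pt} (hT : IsTile 2 T)
    (hs : ∀ c ∈ T, c.1 + c.2.1 + c.2.2 = 1) : ∃ t : Code, t.ok ∧ T = tl m t := by
  rcases hT with ⟨v, rfl⟩ | ⟨v, rfl⟩ | ⟨f, hf, c, rfl⟩
  · have h0 := hs (v + (0, 0, 1)) (by unfold rightStone; simp)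
    obtain ⟨l, x, h⟩ := exists_pt m h0
    refine ⟨⟨l, x, x, x + 1⟩, ⟨Or.inl rfl, Or.inr rfl⟩, ?_⟩
    have hv : v = pt m l x - (0, 0, 1) := by rw [← h, add_sub_cancel_right]
    have e1 : pt m (l + 1) x = v + (0, 1, 0) := by
      rw [hv]; unfold pt; rw [Prod.ext_iff, Prod.ext_iff]; simp; omega
    have e2 : pt m (l + 2) (x + 1) = v + (1, 0, 0) := by
      rw [hv]; unfold pt; rw [Prod.ext_iff, Prod.ext_iff]; simp; omega
    unfold tl rightStone
    simp only
    rw [e1, e2, ← h]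
    ext c
    simp only [Set.mem_insert_iff, Set.mem_singleton_iff]
    tauto
  · have h0 := hs (v - (1, 0, 0)) (by unfold leftStone; simp)
    obtain ⟨l, x, h⟩ := exists_pt m h0
    refine ⟨⟨l, x, x + 1, x + 1⟩, ⟨Or.inr rfl, Or.inl rfl⟩, ?_⟩
    have hv : v = pt m l x + (1, 0, 0) := by rw [← h, sub_add_cancel]
    have e1 : pt m (l + 1) (x + 1) = v - (0, 1, 0) := by
      rw [hv]; unfold pt; rw [Prod.ext_iff, Prod.ext_iff]; simp; omega
    have e2 : pt m (l + 2) (x + 1) = v - (0, 0, 1) := by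
      rw [hv]; unfold pt; rw [Prod.ext_iff, Prod.ext_iff]; simp; omega
    unfold tl leftStone
    simp only
    rw [e1, e2, ← h]
  · have h0 := hs c (by unfold bone; simp)
    obtain ⟨l, x, h⟩ := exists_pt m h0
    fin_cases f
    · refine ⟨⟨l, x, x + 1, x + 1 + 1⟩, ⟨Or.inr rfl, Or.inr rfl⟩, ?_⟩
      have e1 : pt m (l + 1) (x + 1) = c + dir 0 := by
        rw [h]; unfold pt dir; rw [Prod.ext_iff, Prod.ext_iff]; simp; omega
      have e2 : pt m (l + 2) (x + 1 + 1) = c + dir 0 + dir 0 := by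
        rw [h]; unfold pt dir; rw [Prod.ext_iff, Prod.ext_iff]; simp; omega
      unfold tl bone
      simp only
      rw [e1, e2, ← h]
      rfl
    · refine ⟨⟨l, x, x, x⟩, ⟨Or.inl rfl, Or.inl rfl⟩, ?_⟩
      have e1 : pt m (l + 1) x = c + dir 1 := by
        rw [h]; unfold pt dir; rw [Prod.ext_iff, Prod.ext_iff]; simp; omega
      have e2 : pt m (l + 2) x = c + dir 1 + dir 1 := by
        rw [h]; unfold pt dir; rw [Prod.ext_iff, Prod.ext_iff]; simp; omega
      unfold tl bone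
      simp only
      rw [e1, e2, ← h]
      rfl
    · exact absurd rfl hf

theorem T112_two (m : ℕ) : T112 2 (m + 3) (2 * m + 2) = sch (m + 1) m := by
  rw [← (cnt_bz m).2]
  unfold T112 cnt
  have hcard : Nat.card {P : Set Code // IsT (bz m) P} = {P : Set Code | IsT (bz m) P}.ncard := rfl
  rw [hcard]
  have himg : {P | IsTiling 2 (benzel (m + 3) (2 * m + 2)) P} =
      (fun P => tl m '' P) '' {P : Set Code | IsT (bz m) P} := by
    ext Q
    constructor
    · rintro ⟨h1, h2⟩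
      refine ⟨{t | t.ok ∧ tl m t ∈ Q}, ?_, ?_⟩
      · refine ⟨fun t ht => ht.1, ?_, ?_, ?_⟩
        · rintro t ⟨-, ht⟩ l x htx
          exact pt_mem_benzel.1 ((h1 _ ht).2 (mem_tl.2 htx))
        · intro l x hx
          obtain ⟨T, ⟨hT, hcT⟩, -⟩ := h2 _ (pt_mem_benzel.2 hx)
          obtain ⟨t, hok, rfl⟩ := exists_code (m := m) (h1 T hT).1
            (fun c hc => ((h1 T hT).2 hc).1)
          exact ⟨t, ⟨hok, hT⟩, mem_tl.1 hcT⟩
        · rintro t ⟨-, ht⟩ t' ⟨-, ht'⟩ l x hx hx'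
          have hb : pt m l x ∈ benzel (m + 3) (2 * m + 2) := (h1 _ ht).2 (mem_tl.2 hx)
          exact tl_inj (ExistsUnique.unique (h2 _ hb) ⟨ht, mem_tl.2 hx⟩ ⟨ht', mem_tl.2 hx'⟩)
      · ext T
        constructor
        · rintro ⟨t, ⟨-, ht⟩, rfl⟩
          exact ht
        · intro hT
          obtain ⟨t, hok, rfl⟩ := exists_code (m := m) (h1 T hT).1
            (fun c hc => ((h1 T hT).2 hc).1)
          exact ⟨t, ⟨hok, hT⟩, rfl⟩
    · rintro ⟨P, hP, rfl⟩
      refine ⟨?_, ?_⟩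
      · rintro _ ⟨t, ht, rfl⟩
        exact ⟨isTile_tl (hP.ok t ht), tl_sub (hP.inR t ht)⟩
      · intro c hc
        obtain ⟨l, x, rfl⟩ := exists_pt m hc.1
        obtain ⟨t, ht, htx⟩ := hP.cov l x (pt_mem_benzel.1 hc)
        refine ⟨tl m t, ⟨⟨t, ht, rfl⟩, mem_tl.2 htx⟩, ?_⟩
        rintro _ ⟨⟨t', ht', rfl⟩, hx'⟩
        rw [hP.uni t ht t' ht' l x htx (mem_tl.1 hx')]
  rw [himg]
  apply Set.ncard_image_of_injective
  intro P P' h
  exact (Function.Injective.image_injective fun t t' h => tl_inj h) h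

/-- `T_112(n+2,2n) = S_n - S_{n-1}` for every `n ≥ 1`, whichever bone orientation is left out. -/
theorem result (n : ℕ) (hn : 1 ≤ n) (e : Fin 3) :
    T112 e (n + 2) (2 * n) + schroeder (n - 1) = schroeder n := by
  obtain ⟨m, rfl⟩ : ∃ m, n = m + 1 := ⟨n - 1, by omega⟩
  have h1 : T112 e ((m + 1 : ℕ) + 2) (2 * (m + 1 : ℕ)) = T112 2 (m + 3) (2 * m + 2) := by
    have e1 : (((m + 1 : ℕ) : ℤ) + 2) = m + 3 := by push_cast; ring
    have e2 : (2 * ((m + 1 : ℕ) : ℤ)) = 2 * m + 2 := by push_cast; ring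
    rw [e1, e2]
    fin_cases e
    · exact T112_rot 2 _ _
    · exact (T112_rot 0 _ _).trans (T112_rot 2 _ _)
    · rfl
  rw [h1, T112_two, schroeder_eq, schroeder_eq, Nat.add_sub_cancel, sch_diag]

end Pool.Agent.Results.MP_65d510_co.SchroederBenzel
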